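import Mathlib
import Pool.Agent.H.MP_e9741b_an.K

namespace Pool.Agent.Results.MP_e9741b_an.TypeAnotB

open MeasureTheory AddCircle

/-- functions on the circle; elements of `L^∞` are handled through their representatives -/
abbrev Fn := UnitAddCircle → ℂ

/-- `YA`: the elements of `Y` whose negative Fourier coefficients vanish -/
def Ana (Y : Set Fn) : Set Fn := {f | f ∈ Y ∧ ∀ n : ℤ, n < 0 → fourierCoeff f n = 0}

/-- `H^∞` -/
def Hinf : Set Fn := Ana {f | MemLp f ⊤ haarAddCircle}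

/-- closed subalgebras of `L^∞` (essential supremum norm) -/
structure ClosedAlg (S : Set Fn) : Prop where
  bdd : ∀ f ∈ S, MemLp f ⊤ haarAddCircle
  zero : 0 ∈ S
  add : ∀ f ∈ S, ∀ g ∈ S, f + g ∈ S
  mul : ∀ f ∈ S, ∀ g ∈ S, f * g ∈ S
  smul : ∀ c : ℂ, ∀ f ∈ S, c • f ∈ S
  closed : ∀ f, MemLp f ⊤ haarAddCircle →
    (∀ ε > 0, ∃ g ∈ S, ∀ᵐ t ∂haarAddCircle, ‖f t - g t‖ ≤ ε) → f ∈ S

/-- closed self-adjoint subalgebras of `L^∞` -/
def CStar (V : Set Fn) : Prop := ClosedAlg V ∧ ∀ f ∈ V, star f ∈ V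

def Douglas (D : Set Fn) : Prop := ClosedAlg D ∧ Hinf ⊆ D

def Inner (I : Fn) : Prop := I ∈ Hinf ∧ ∀ᵐ t ∂haarAddCircle, ‖I t‖ = 1

/-- inner functions invertible in `D` -/
def ID (D : Set Fn) : Set Fn := {I | Inner I ∧ ∃ g ∈ D, ∀ᵐ t ∂haarAddCircle, I t * g t = 1}

def QD (D : Set Fn) : Set Fn := {f | f ∈ D ∧ star f ∈ D}

def CD (D : Set Fn) : Set Fn := ⋂₀ {V | CStar V ∧ ID D ⊆ V}

/-- the maximal ideal space, inside `X → ℂ` with the product (weak-star) topology -/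
def Spec (X : Set Fn) : Set (X → ℂ) := {m | (∃ f, m f ≠ 0) ∧
  (∀ f g h : X, (∀ᵐ t ∂haarAddCircle, h.1 t = f.1 t + g.1 t) → m h = m f + m g) ∧
  (∀ f g h : X, (∀ᵐ t ∂haarAddCircle, h.1 t = f.1 t * g.1 t) → m h = m f * m g) ∧
  ∀ (c : ℂ) (f h : X), (∀ᵐ t ∂haarAddCircle, h.1 t = c * f.1 t) → m h = c * m f}

/-- closed boundaries; the Shilov boundary is the least one -/
def Bdry (X : Set Fn) : Set (Set (X → ℂ)) :=
  {Γ | IsClosed Γ ∧ Γ ⊆ Spec X ∧ ∀ f : X, ∃ m ∈ Γ, ∀ m' ∈ Spec X, ‖m' f‖ ≤ ‖m f‖}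

def TypeA (X : Set Fn) : Prop :=
  (∃ D, Douglas D ∧ Ana (CD D) ⊆ X ∧ X ⊆ Ana (QD D)) ∧
  IsLeast (Bdry X) {m | m ∈ Spec X ∧ ∀ I : X, Inner I.1 → ‖m I‖ = 1} ∧
  (∀ f ∈ X, ∀ I ∈ X, Inner I → f * star I ∈ Hinf → f * star I ∈ X) ∧
  ∀ f ∈ X, ∀ g ∈ Hinf, (∀ᵐ t ∂haarAddCircle, f t * g t = 1) → g ∈ X

def TypeB (X : Set Fn) : Prop :=
  ∃ V D, CStar V ∧ Douglas D ∧ CD D ⊆ V ∧ V ⊆ QD D ∧ X = Ana V

section
open Filter Topology Metric ComplexConjugate BoundedContinuousFunction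
open Pool.Agent.H.MP_e9741b_an Pool.Agent.H.MP_ceba03_an Pool.Agent.H.MP_e9aa5f_an
open Pool.Agent.H.MP_496271_an
open Pool.Agent.H.MP_a7579f_an (small)

lemma lb {f : Fn} {B : ℝ} (h : Bd f B) : MemLp f ⊤ μ := memLp_top_of_bound h.1 B h.2

lemma hinf {f : Fn} : f ∈ Hinf ↔ HH f := ⟨fun h => (HH_iff f).1 ⟨h.1.1, h.1.2, h.2⟩,
  fun ⟨_, h⟩ => ⟨lb h.1, h.2⟩⟩

lemma ClosedAlg.congr {S : Set Fn} (h : ClosedAlg S) {f g : Fn} (hf : f ∈ S) (h1 : f =ᵐ[μ] g) :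
    g ∈ S := h.closed g ((h.bdd f hf).ae_eq h1) fun ε hε =>
  ⟨f, hf, h1.mono fun t ht => by simp [ht, hε.le]⟩

lemma ClosedAlg.cont {S : Set Fn} (h : ClosedAlg S) (h1 : ⇑(fourier 1) ∈ S)
    (h2 : ⇑(fourier (-1)) ∈ S) (u : C(T, ℂ)) : ⇑u ∈ S := by
  have h3 : ∀ m n : ℤ, ⇑(fourier m) ∈ S → ⇑(fourier n) ∈ S → ⇑(fourier (m + n)) ∈ S :=
    fun m n a b => h.congr (h.mul _ a _ b) (.of_forall fun _ => fourier_add.symm)
  have h4 : u ∈ closure (Submodule.span ℂ (Set.range (@fourier 1)) : Set C(T, ℂ)) := by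
    rw [← Submodule.topologicalClosure_coe, span_fourier_closure_eq_top]; trivial
  refine h.closed _ (lb (bd_cont u.continuous).choose_spec) fun ε hε => ?_
  obtain ⟨v, h5, h6⟩ := Metric.mem_closure_iff.1 h4 ε hε
  refine ⟨v, ?_, .of_forall fun t => (dist_eq_norm _ _).symm.trans_le
    ((ContinuousMap.dist_apply_le_dist t).trans h6.le)⟩
  clear h6
  induction h5 using Submodule.span_induction with
  | mem _ h5 =>
    obtain ⟨k, rfl⟩ := h5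
    induction k using Int.induction_on with
    | zero => exact h3 1 (-1) h1 h2
    | succ k ih => exact h3 _ _ ih h1
    | pred k ih => exact h3 _ _ ih h2
  | zero => exact h.zero
  | add x y _ _ a b => exact h.add _ a _ b
  | smul c x _ a => exact h.smul c _ a

def rp (S : Subalgebra ℂ BT) : Set Fn := {f | ∃ g ∈ S, f =ᵐ[μ] ex g}

lemma rp_alg {S : Subalgebra ℂ BT} (h : IsClosed (S : Set BT)) : ClosedAlg (rp S) where
  bdd := fun _ ⟨g, _, a⟩ => (lb (ex_bd g)).ae_eq a.symm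
  zero := ⟨0, zero_mem _, ae0 fun t => by simp [ex_val]⟩
  add := fun _ ⟨_, a, b⟩ _ ⟨_, c, d⟩ => ⟨_, add_mem a c, (b.add d).trans (ae0 fun t => by simp [ex_val])⟩
  mul := fun _ ⟨_, a, b⟩ _ ⟨_, c, d⟩ => ⟨_, mul_mem a c, (b.mul d).trans (ae0 fun t => by simp [ex_val])⟩
  smul := fun c _ ⟨_, a, b⟩ => ⟨_, S.smul_mem a c, (b.const_smul c).trans
    (ae0 fun t => by simp [ex_val])⟩
  closed := fun f _ a => ex_lim h fun ε hε =>
    let ⟨_, ⟨g, b, c⟩, d⟩ := a ε hε; ⟨g, b, (c.and d).mono fun _ h => h.1 ▸ h.2⟩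

def DD : Set Fn := {f | MemLp f ⊤ μ ∧ ∀ ε > 0, ∃ (n : ℕ) (h : Fn), HH h ∧
  ∀ᵐ t ∂μ, ‖f t - fourier (-n) t * h t‖ ≤ ε}

lemma f0 (n : ℤ) (t : T) : fourier (-n) t * fourier n t = 1 := by rw [← fourier_add]; simp

lemma DD_alg : ClosedAlg DD where
  bdd _ h := h.1
  zero := ⟨by simp, fun ε hε => ⟨0, _, HH.const 0, by simp [hε.le]⟩⟩
  add f a g b := ⟨a.1.add b.1, fun ε hε => by
    obtain ⟨n, h, h1, h2⟩ := a.2 _ (half_pos hε)
    obtain ⟨m, k, h3, h4⟩ := b.2 _ (half_pos hε)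
    refine ⟨n + m, _, HH.add (HH.mul (hh_four m) h1) (HH.mul (hh_four n) h3),
      (h2.and h4).mono fun t h5 => (le_of_eq ?_).trans ((norm_add_le_of_le h5.1 h5.2).trans_eq
        (add_halves ε))⟩
    rw [Nat.cast_add, neg_add, fourier_add, Pi.add_apply]
    congr 1
    linear_combination -fourier (-n) t * h t * f0 m t - fourier (-m) t * k t * f0 n t⟩
  mul f a g b := ⟨lb ((bd_top a.1.1 a.1.2).mul (bd_top b.1.1 b.1.2)), fun ε hε => by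
    obtain ⟨B, hB⟩ : ∃ B, Bd f B := ⟨_, bd_top a.1.1 a.1.2⟩
    obtain ⟨C, hC⟩ : ∃ B, Bd g B := ⟨_, bd_top b.1.1 b.1.2⟩
    obtain ⟨δ, d0, d1, d2⟩ := small (B + (C + 1)) hε
    obtain ⟨n, h, h1, h2⟩ := a.2 _ d0
    obtain ⟨m, k, h3, h4⟩ := b.2 _ d0
    refine ⟨n + m, _, HH.mul h1 h3, ?_⟩
    filter_upwards [h2, h4, hB.2, hC.2] with t h5 h6 h7 h8
    refine (le_of_eq ?_).trans ((norm_add_le_of_le (norm_mul_le_of_le h7 h6) (norm_mul_le_of_le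
      (norm_sub_le_of_le h8 (h6.trans d1)) h5)).trans (by linarith))
    rw [Nat.cast_add, neg_add, fourier_add, Pi.mul_apply]
    congr 1; ring⟩
  smul c f a := ⟨a.1.const_smul c, fun ε hε => by
    obtain ⟨δ, d0, -, d2⟩ := small ‖c‖ hε
    obtain ⟨n, h, h1, h2⟩ := a.2 _ d0
    refine ⟨n, _, HH.mul (HH.const c) h1, h2.mono fun t h3 => (le_of_eq ?_).trans
      ((norm_mul_le_of_le le_rfl h3).trans d2)⟩
    rw [Pi.smul_apply, smul_eq_mul]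
    congr 1; ring⟩
  closed f a b := ⟨a, fun ε hε => by
    obtain ⟨g, h1, h2⟩ := b _ (half_pos hε)
    obtain ⟨n, h, h3, h4⟩ := h1.2 _ (half_pos hε)
    exact ⟨n, h, h3, (h2.and h4).mono fun t h5 => (norm_sub_le_norm_sub_add_norm_sub _ (g t) _).trans
      ((add_le_add h5.1 h5.2).trans_eq (add_halves ε))⟩⟩

lemma H_DD : Hinf ⊆ DD := fun f h => ⟨h.1, fun ε hε => ⟨0, f, hinf.1 h, by simp [hε.le]⟩⟩

lemma e_X : rs (fourier 1) ∈ XX := rs_X (hh_four 1)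

lemma rp_H : rp XX ⊆ Hinf := fun _ ⟨_, a, b⟩ => hinf.2 (HH.congr a.1.1 b.symm)

lemma star_ex {f : Fn} {g : BT} (h : f =ᵐ[μ] ex g) (hg : g ∈ X0) :
    ∃ u : C(T, ℂ), star f =ᵐ[μ] ex (st g) + u := (conj_split hg).imp fun u hu =>
  (h.fun_comp star).trans (ae0 fun t => by simpa [ex_val] using hu t)

lemma condA : Ana (CD DD) ⊆ rp XX ∧ rp XX ⊆ Ana (QD DD) := by
  refine ⟨fun f hf => ?_, fun f hf => ⟨⟨H_DD (rp_H hf), ?_⟩, (rp_H hf).2⟩⟩
  · obtain ⟨g, h1, h2⟩ := hf.1 (rp C') ⟨⟨rp_alg (Sl_cl _ _ _), fun f ⟨g, a, b⟩ => ⟨star g,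
      tc (Tendsto.star a) (star_zero _) fun _ => star_sub _ _, (b.fun_comp star).trans
        (ae0 fun t => by simp [ex_val])⟩⟩, fun I ⟨a, g, b, c⟩ => by
      obtain ⟨n, h, h1, h2⟩ := b.2 _ one_half_pos
      obtain ⟨u, hu⟩ := inner_cont (hinf.1 a.1) a.2 (HH.mul h1 (hh_four 1)) n (by
        filter_upwards [a.2, c, h2] with t h3 h4 h5
        have := norm_mul_le_of_le (norm_mul_le_of_le h3.le (four_norm (n + 1 : ℕ) t).le) h5
        refine (le_of_eq ?_).trans (this.trans_eq (by norm_num))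
        rw [Nat.cast_add, fourier_add]
        congr 1
        linear_combination -fourier n t * fourier (1 : ℕ) t * h4 +
          I t * h t * fourier (1 : ℕ) t * f0 n t)
      exact ⟨_, rs_C u, hu.trans (ex_rs u)⟩⟩
    exact ⟨g, C_X h1 (HH.congr (hinf.1 ⟨(lb (ex_bd g)).ae_eq h2.symm, hf.2⟩) h2), h2⟩
  · obtain ⟨g, h1, h2⟩ := hf
    obtain ⟨u, hu⟩ := star_ex h2 h1.1
    exact DD_alg.congr (DD_alg.add _ (H_DD (hinf.2 (st_X0 h1.1).1)) _ (DD_alg.cont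
      (H_DD (hinf.2 (hh_four 1))) ⟨lb (bd_four _), fun ε hε => ⟨1, _, HH.const 1, by simp [hε.le]⟩⟩
      u)) hu.symm

lemma notB : ¬ TypeB (rp XX) := fun ⟨V, _, hV, _, _, _, h⟩ => by
  have h0 : rp XX ⊆ V := fun f hf => (h ▸ hf : f ∈ Ana V).1
  have h1 := h0 ⟨_, e_X, ex_rs _⟩
  obtain ⟨c, h2, h3⟩ := gl analyticOnNhd_id
  have h4 := F_X h2
  obtain ⟨u, hu⟩ := star_ex .rfl h4.1
  have h5 : ex (st (F c)) ∈ rp XX := h ▸ ⟨hV.1.congr (hV.1.add _ (hV.2 _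
    (h0 ⟨_, h4, .rfl⟩)) _ (hV.1.cont h1 (hV.1.congr (hV.2 _ h1) (.of_forall fun _ =>
      fourier_neg.symm)) (-u))) (hu.mono fun t ht => by simp_all), (hinf.2 (st_X0 h4.1).1).2⟩
  obtain ⟨g, h6, h7⟩ := h5
  rw [← ex_inj h7] at h6
  refine Y_conj (c := star c) (by simp [h3]) ?_
  simpa using add_mem (lim_Y (c := star c - ev (st (F c))) (a := 0)
    (tc ((Tendsto.comp h4.1.2 ts_tend).sub (F_ev c)).star (by simp) fun n => by
      show star (F c (ts n) - F c (ng (ts n)) - (F c (ts n) - c n)) =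
        star (c n) - star (F c (ng (ts n)))
      rw [← star_sub]; congr 1; ring)) (show ev _ ∈ Y from h6.2)

noncomputable def rep (f : rp XX) : BT := f.2.choose

lemma rep_X (f : rp XX) : rep f ∈ XX := f.2.choose_spec.1

lemma rep_ae (f : rp XX) : f.1 =ᵐ[μ] ex (rep f) := f.2.choose_spec.2

lemma rep_ex {g : BT} (h : ex g ∈ rp XX) : rep ⟨ex g, h⟩ = g := (ex_inj (rep_ae ⟨ex g, _⟩)).symm

lemma of_ch {τ : BT →ₗ[ℂ] ℂ} (h : Ch XX τ) : (fun f => τ (rep f)) ∈ Spec (rp XX) := by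
  have h0 := ae0 (p := fun t => ∃ s : T', s.1 = t) fun t => ⟨t, rfl⟩
  refine ⟨⟨⟨ex 1, 1, one_mem _, .rfl⟩,
    ((congrArg τ (rep_ex _)).trans h.one).trans_ne one_ne_zero⟩, fun f g k a => ?_, fun f g k a => ?_,
    fun c f k a => ?_⟩
  · refine (congrArg τ (ex_inj ?_)).trans (map_add τ _ _)
    filter_upwards [a, rep_ae f, rep_ae g, rep_ae k, h0] with t a b c d ⟨s, hs⟩
    rw [← d, a, b, c, ← hs]; simp [ex_val]
  · refine (congrArg τ (ex_inj ?_)).trans (h.mul (rep_X f) (rep_X g))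
    filter_upwards [a, rep_ae f, rep_ae g, rep_ae k, h0] with t a b c d ⟨s, hs⟩
    rw [← d, a, b, c, ← hs]; simp [ex_val]
  · refine (congrArg τ (ex_inj ?_)).trans (map_smul τ c _)
    filter_upwards [a, rep_ae f, rep_ae k, h0] with t a b d ⟨s, hs⟩
    rw [← d, a, b, ← hs]; simp [ex_val]

lemma to_ch {m : rp XX → ℂ} (h : m ∈ Spec (rp XX)) :
    ∃ τ, Ch XX τ ∧ m = fun f => τ (rep f) := by
  obtain ⟨⟨f, h0⟩, h1, h2, h3⟩ := h
  obtain ⟨τ, hτ⟩ := LinearMap.exists_extend (p := XX.toSubmodule)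
    { toFun := fun g => m ⟨ex g.1, g.1, g.2, .rfl⟩
      map_add' := fun _ _ => h1 _ _ _ (ae0 fun t => by simp [ex_val])
      map_smul' := fun _ _ => h3 _ _ _ (ae0 fun t => by simp [ex_val]) }
  have h4 : ∀ g (hg : g ∈ XX), τ g = m ⟨ex g, g, hg, .rfl⟩ := fun g hg =>
    LinearMap.congr_fun hτ ⟨g, hg⟩
  refine ⟨τ, ⟨?_, fun a b => ?_⟩, funext fun f => ?_⟩
  · rw [h4 _ (one_mem _)]
    exact mul_left_cancel₀ h0 ((h2 _ _ _ (ae0 fun t => by simp [ex_val])).symm.trans (mul_one _).symm)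
  · rw [h4 _ a, h4 _ b, h4 _ (mul_mem a b)]
    exact h2 _ _ _ (ae0 fun t => by simp [ex_val])
  · rw [h4 _ (rep_X f)]
    exact (h3 1 _ _ ((rep_ae f).mono fun _ h => h.trans (one_mul _).symm)).trans (one_mul _)

lemma ev_ch (t : T') : Ch XX (evalCLM ℂ t).toLinearMap := ⟨rfl, fun _ _ => rfl⟩

lemma shilov : IsLeast (Bdry (rp XX))
    {m | m ∈ Spec (rp XX) ∧ ∀ I : rp XX, Inner I.1 → ‖m I‖ = 1} := by
  have h1 : IsClosed {m | m ∈ Spec (rp XX) ∧ ∀ I : rp XX, Inner I.1 → ‖m I‖ = 1} := by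
    rw [show {m | m ∈ Spec (rp XX) ∧ _} = {m : rp XX → ℂ | _ ∧ _} from Set.ext fun m =>
      and_congr_left fun h => and_iff_right ⟨⟨ex 1, 1, one_mem _, .rfl⟩, norm_ne_zero_iff.1
        (by rw [h _ ⟨rp_H (Subtype.prop _), ae0 fun t => by simp [ex_val]⟩]; simp)⟩]
    simp only [Set.ofPred_and, Set.ofPred_forall]
    repeat' first | exact isClosed_eq (by fun_prop) (by fun_prop) | apply IsClosed.inter |
      refine isClosed_iInter fun _ => ?_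
  have h2 : ∀ m ∈ Spec (rp XX), ∀ f, ‖m f‖ ≤ ‖rep f‖ := fun m hm f => by
    obtain ⟨τ, a, rfl⟩ := to_ch hm
    exact a.le XX_cl (rep_X f)
  have h3 : ∀ t : T', (fun f => rep f t) ∈
      {m | m ∈ Spec (rp XX) ∧ ∀ I : rp XX, Inner I.1 → ‖m I‖ = 1} := fun t =>
    ⟨of_ch (ev_ch t), fun I hI => (congrArg norm (ex_val (rep I) t)).symm.trans <| of_ae
      (p := fun t => ‖ex (rep I) t‖ = 1)
      ((hI.2.and (rep_ae I)).mono fun _ h => h.2 ▸ h.1)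
      (by simp only [ex_val]; exact isClosed_eq (by fun_prop) continuous_const) t⟩
  refine ⟨⟨h1, fun _ h => h.1, fun f => ?_⟩, fun Γ ⟨a, b, c⟩ m ⟨hm, h⟩ => ?_⟩
  · obtain ⟨m, h4, h5⟩ := ((isCompact_univ_pi fun f => isCompact_closedBall 0 ‖rep f‖).of_isClosed_subset
      h1 fun m hm f _ => mem_closedBall_zero_iff.2 (h2 m hm.1 f)).exists_isMaxOn
      ⟨_, h3 (ts 0)⟩ (f := fun m => ‖m f‖) (by fun_prop)
    exact ⟨m, h4, fun m' hm => (h2 m' hm f).trans ((norm_le (norm_nonneg _)).2 fun t => h5 (h3 t))⟩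
  obtain ⟨τ, h4, rfl⟩ := to_ch hm
  obtain ⟨l, h5, h6⟩ := fiber h4 ((congrArg (‖τ ·‖) (rep_ex _)).symm.trans (h ⟨_, _, e_X, .rfl⟩
    ⟨rp_H ⟨_, e_X, .rfl⟩, (ex_rs _).mono fun t ht => (congrArg norm ht).symm.trans (four_norm 1 t)⟩))
  refine a.mem_of_tendsto (f := fun t f => rep f t) (tendsto_pi_nhds.2 fun f => h6 _ (rep_X f))
    (.of_forall fun t => ?_)
  obtain ⟨m, h7, h8⟩ := c ⟨_, _, P_X t, .rfl⟩
  obtain ⟨σ, h9, rfl⟩ := to_ch (b h7)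
  have := ((congrArg (fun g : BT => ‖g t‖) (rep_ex _)).symm.trans_le (h8 _ (h3 t).1)).trans_eq
    (congrArg (‖σ ·‖) (rep_ex _))
  convert h7 using 2 with f
  exact (pt h9 (((congrArg norm (Pu_self t)).trans norm_one).ge.trans this) (rep_X f)).symm

end

open Pool.Agent.H.MP_e9741b_an Pool.Agent.H.MP_e9aa5f_an in
theorem result : ∃ X : Set Fn, ClosedAlg X ∧ X ⊆ Hinf ∧ TypeA X ∧ ¬ TypeB X := by
  refine ⟨rp XX, rp_alg XX_cl, rp_H, ⟨⟨DD, ⟨DD_alg, H_DD⟩, condA⟩, shilov,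
    fun f ⟨g, a, b⟩ I ⟨k, c, d⟩ h1 h2 => divX a c (hinf.1 h2) one_pos
      ((h1.2.and d).mono fun t h => h.2 ▸ h.1.ge) ?_, fun f ⟨k, c, d⟩ g h1 h2 => ?_⟩, notB⟩
  · filter_upwards [b, d, h1.2] with t h3 h4 h5
    have := Complex.mul_conj' (I t)
    rw [h5, Complex.ofReal_one] at this
    rw [← h3, ← h4, Pi.mul_apply, Pi.star_apply, Complex.star_def]
    linear_combination f t * this
  · obtain ⟨B, hB⟩ := hinf.1 h1
    have := hB.1.nonneg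
    refine divX (one_mem _) c ⟨B, hB⟩ (δ := (B + 1)⁻¹) (by positivity) ?_ ?_
    · filter_upwards [d, h2, hB.1.2] with t h3 h4 h5
      rw [← h3, inv_le_iff_one_le_mul₀ (by positivity)]
      have := norm_mul_le_of_le (le_refl ‖f t‖) h5
      rw [h4, norm_one] at this
      nlinarith [norm_nonneg (f t)]
    · filter_upwards [d, h2, ae0 (p := fun t => ex 1 t = 1) fun t => by simp [ex_val]] with t h3 h4 h5
      rw [← h3, h4, h5]

end Pool.Agent.Results.MP_e9741b_an.TypeAnotB
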